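import Pool.Agent.Q146.Cls4

/-!
# Tilings with `12 t` components in `t` classes

Definitions (in `Pool.Agent.Q146.Cls`, file `ClsDefs.lean`): the Euclidean plane is `ℂ`;
`IsTiling`: a countable family of closed sets with union the plane and pairwise disjoint interiors;
`IsSymm 𝒯 σ`: the isometry `σ` of the plane maps `𝒯` onto itself; `IsIsohedral`: the symmetries
act transitively on the tiles; `IsComponents T 𝒞`: `𝒞` is a family of pairwise disjoint closed
topological disks with union `T`; `Equivalent 𝒯 T D D'`: a symmetry of `𝒯` that maps `T` onto
itself maps `D` onto `D'`; `IsClassTiling t k 𝒯`: `𝒯` is an isohedral tiling whose tiles have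
exactly `k` components, in exactly `t` equivalence classes.
-/

set_option autoImplicit false

open Pool.Agent.Q146.Cls

namespace Pool.Agent.Results.MP_2d2d9d_co.AllClassNumbers

/-- The set of the positive integers `t` for which there is a `t`-class `12 t`-component tiling
consists of all positive integers. -/
theorem result :
    {t : ℕ | 0 < t ∧ ∃ 𝒯 : Set (Set ℂ), IsClassTiling t (12 * t) 𝒯} = {t : ℕ | 0 < t} := by
  ext t
  exact ⟨fun h => h.1, fun h => ⟨h, tiling t, isClassTiling h⟩⟩

end Pool.Agent.Results.MP_2d2d9d_co.AllClassNumbers
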